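import Pool.Agent.H76.HMS.SvStmts

/-!
# HMS, module VRK: rank, dimension and invariant of a split
-/

set_option autoImplicit false

namespace Pool.HMS

open TMLib Finset

theorem VRK_qNum_mono (d : ℕ) {D D' : ℕ} (h : D ≤ D') : qNum d D ≤ qNum d D' := by
  unfold qNum
  gcongr

theorem VRK_dimB_succ (d w j : ℕ) : dimB d w j ≤ dimB d w (j + 1) := by
  simp only [dimB]
  omega

theorem VRK_dimB_mono (d w : ℕ) : Monotone (dimB d w) :=
  monotone_nat_of_le_succ fun j => VRK_dimB_succ d w j

theorem VRK_split {l : ℕ} {L : List ENode} (hl : l < L.length) :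
    L = L.take l ++ (L.getD l (0, [], 0) :: L.drop (l + 1)) := by
  rw [List.getD_eq_getElem _ _ hl, ← List.drop_eq_getElem_cons hl, List.take_append_drop]

theorem VRK_offs (d : ℕ) (S : SState) :
    dimS d S = S.1 * (d + 1) + (S.2.map fun p => p.1 + 1).sum := by
  unfold dimS offs
  rw [List.take_length]

theorem vrk_thm (h1 : S_EGR) (h2 : S_ESL) (h3 : S_EKL) (h4 : S_EAP) : S_VRK := by
  intro wd cr C w d b B rows S l r ys hBi hB hS hl hl1 hcr hwd hwb _ hR
  set x := nodeAt S l with hx
  have hxmem : x ∈ S.2 := by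
    rw [hx, nodeAt, List.getD_eq_getElem _ _ hl]
    exact List.getElem_mem hl
  obtain ⟨hxok, hxsem⟩ := hS.pieces x hxmem
  have hxd : x.1 ≤ d := hxok.le
  have huni := hR.uni rfl
  have hgr := hR.growth rfl
  have hi0 := hR.int0 rfl
  have hi1 := hR.int1 rfl
  have hbd := hR.bound rfl
  have hwid := hR.width rfl
  have hkid := h1 cr C d b B x r hBi hB hxok hl1 (hcr x.1 hxd) huni hgr hi0 hbd.1 hbd.2
  have hwx := hwd x.1 hxd
  have hwidb : r.2.2.2 - r.2.2.1 < b := by
    have : ((wd x.1 + 1 : ℕ) : ℚ) ≤ b := by exact_mod_cast hwx.trans hwb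
    push_cast at this
    linarith
  have hkl := h3 b r.2.2.1 r.2.2.2 hi0 hi1 hwidb
  have hklen : (kids b x r).length ≤ w := by
    have e1 : (kids b x r).length = (kList b r.2.2.1 r.2.2.2).length := by
      simp [kids]
    have e2 : ((kList b r.2.2.1 r.2.2.2).length : ℚ) ≤ ((wd x.1 + 1 : ℕ) : ℚ) := by
      refine hkl.2.trans (max_le (by positivity) ?_)
      push_cast
      linarith
    have e3 : (kList b r.2.2.1 r.2.2.2).length ≤ wd x.1 + 1 := by exact_mod_cast e2
    omega
  -- the pieces
  have hpieces : ∀ p ∈ (splitS d b S l r).2, NodeOK C d B p ∧ NodeSem d (Poly d rows) p := by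
    intro p hp
    simp only [splitS, List.mem_append] at hp
    rcases hp with hp | hp | hp
    · exact hS.pieces p (List.mem_of_mem_take hp)
    · refine ⟨(hkid p hp).1, ?_⟩
      simp only [kids, List.mem_map] at hp
      obtain ⟨k, _, rfl⟩ := hp
      intro y hy
      obtain ⟨hys, hyp⟩ := hy
      simp only at hys hyp ⊢
      obtain ⟨_, _, _, _, h45, h46, _, _, _⟩ := h4
      rw [h46] at hyp
      have hbox := hxsem _ (show appF x.1 (x.1 - 1) (slice x.1 r.2.1.1 k) y ∈
        preK d x.1 x.2.1 (Poly d rows) from ⟨h45 _ _ _ _, hyp⟩)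
      exact (h2 x.1 r.2.1.1 r.2.1.2 hl1 huni).2.1 k x.2.2 y
        (le_trans (by norm_num) hxok.two) hys hbox
    · exact hS.pieces p (List.mem_of_mem_drop hp)
  -- decomposition of the list
  have hdec : S.2 = S.2.take l ++ (x :: S.2.drop (l + 1)) := VRK_split hl
  -- the sum over the children
  have hksum : ∀ f : ℕ → ℕ, ((kids b x r).map fun p => f p.1).sum =
      (kids b x r).length * f (x.1 - 1) := by
    intro f
    have : ((kids b x r).map fun p => f p.1) = List.replicate (kids b x r).length (f (x.1 - 1)) := by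
      rw [List.eq_replicate_iff]
      refine ⟨by simp, ?_⟩
      intro c hc
      rw [List.mem_map] at hc
      obtain ⟨p, hp, rfl⟩ := hc
      have := (hkid p hp).2
      congr 1
      omega
    rw [this, List.sum_replicate, smul_eq_mul]
  obtain ⟨e, he⟩ : ∃ e, x.1 = e + 1 := ⟨x.1 - 1, by omega⟩
  have hrk : rkS w (splitS d b S l r) < rkS w S := by
    have e1 : rkS w S = ((S.2.take l).map fun p => sRk w p.1).sum +
        (sRk w x.1 + ((S.2.drop (l + 1)).map fun p => sRk w p.1).sum) := by
      unfold rkS
      conv_lhs => rw [hdec]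
      rw [List.map_append, List.sum_append, List.map_cons, List.sum_cons]
    have e2 : rkS w (splitS d b S l r) = ((S.2.take l).map fun p => sRk w p.1).sum +
        (((kids b x r).map fun p => sRk w p.1).sum +
          ((S.2.drop (l + 1)).map fun p => sRk w p.1).sum) := by
      unfold rkS splitS
      rw [List.map_append, List.sum_append, List.map_append, List.sum_append]
    rw [e1, e2, hksum (sRk w), he, Nat.add_sub_cancel]
    have e3 : (kids b x r).length * sRk w e ≤ w * sRk w e := Nat.mul_le_mul_right _ hklen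
    have e4 : sRk w (e + 1) = 1 + w * sRk w e := rfl
    omega
  have hrank : rkS w (splitS d b S l r) ≤ sRk w d := hrk.le.trans hS.rank
  refine ⟨⟨hpieces, hrank, ?_⟩, hrk⟩
  -- the dimension
  have hd1 : dimS d (splitS d b S l r) ≤
      dimS d S + (d + 1) * qNum d (dimS d S) + w * (d + 1) := by
    have e1 : (S.2.map fun p => p.1 + 1).sum = ((S.2.take l).map fun p => p.1 + 1).sum +
        (x.1 + 1 + ((S.2.drop (l + 1)).map fun p => p.1 + 1).sum) := by
      conv_lhs => rw [hdec]
      rw [List.map_append, List.sum_append, List.map_cons, List.sum_cons]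
    have e2 : ((splitS d b S l r).2.map fun p => p.1 + 1).sum =
        ((S.2.take l).map fun p => p.1 + 1).sum +
        (((kids b x r).map fun p => p.1 + 1).sum +
          ((S.2.drop (l + 1)).map fun p => p.1 + 1).sum) := by
      unfold splitS
      rw [List.map_append, List.sum_append, List.map_append, List.sum_append]
    have e3 := hksum (fun n => n + 1)
    have e4 : (kids b x r).length * (x.1 - 1 + 1) ≤ w * (d + 1) :=
      Nat.mul_le_mul hklen (by omega)
    have e5 : (splitS d b S l r).1 = S.1 + qNum d (dimS d S) := rfl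
    have e6 : dimS d S = S.1 * (d + 1) + (S.2.map fun p => p.1 + 1).sum := VRK_offs d S
    have e8 : dimS d (splitS d b S l r) = (splitS d b S l r).1 * (d + 1) +
        ((splitS d b S l r).2.map fun p => p.1 + 1).sum := VRK_offs d _
    have e7 : qNum d (dimS d S) * (d + 1) = (d + 1) * qNum d (dimS d S) := mul_comm _ _
    rw [e8, e5, e2, e3, add_mul, e7]
    rw [e1] at e6
    omega
  have hj : sRk w d - rkS w S + 1 ≤ sRk w d - rkS w (splitS d b S l r) := by
    have := hS.rank
    omega
  calc dimS d (splitS d b S l r) ≤ dimS d S + (d + 1) * qNum d (dimS d S) + w * (d + 1) := hd1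
    _ ≤ dimB d w (sRk w d - rkS w S) + (d + 1) * qNum d (dimB d w (sRk w d - rkS w S)) +
        w * (d + 1) := by
        have := VRK_qNum_mono d hS.dim
        have h5 := hS.dim
        gcongr
    _ = dimB d w (sRk w d - rkS w S + 1) := rfl
    _ ≤ dimB d w (sRk w d - rkS w (splitS d b S l r)) := VRK_dimB_mono d w hj

end Pool.HMS
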